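import Pool.Agent.Results.MP_f1937f_nt.CurvesInBoxes
import Pool.Agent.X124.RP.Vec

/-!
# Prescribed Frobenius traces for ALL curves with coefficients near the multiples `v_l α` of a generic vector `α`

The curves are `y² = x³ + A_j x + B_j`, `j = 1, ..., r`, for ALL integral vectors `(A_1, B_1, ..., A_r, B_r)` in the cubes with
the centre `v_l α` and the side `2 v_l ^ θ`; here `α` is any real vector outside a set of Hausdorff dimension at most
`(2 r - κ + τ) / (1 - θ)`. There are two kinds of examples: `v_l = b ^ l` (`τ = 0`), where cubes of the side `v_l ^ θ`,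
`0 ≤ θ < κ / (2 r)`, are allowed for almost all `α`; and `v_l = l`, `θ < 0`, where the vectors are the numerators of all good
simultaneous rational approximations to almost all `α ∈ ℝ ^ (2 r)`, for instance of those given by Dirichlet's theorem,
`|A_j - l α_j|, |B_j - l β_j| ≤ l ^ (- 1 / (2 r))`.
-/

set_option autoImplicit false

namespace Pool.Agent.Results.MP_f1937f_nt.CurvesAlongSequences

open Finset MeasureTheory
open CurvesInBoxes (count expected exceptional)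

/-- the exponent of convergence of the sequence `v` is at most `τ` -/
def ExpLe (v : ℕ → ℝ) (τ : ℝ) : Prop := ∀ p : ℝ, τ < p → Summable (fun l : ℕ => (v l) ^ (-p))

/-- the coordinates `A_1, B_1, ..., A_r, B_r` -/
def coord {r : ℕ} (m : Fin r → ℤ × ℤ) (i : Fin r × Fin 2) : ℤ := if i.2 = 0 then (m i.1).1 else (m i.1).2

/-- the largest absolute value of the coordinates -/
def height {r : ℕ} (m : Fin r → ℤ × ℤ) : ℕ := univ.sup fun i => (coord m i).natAbs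

/-- The law for the curves `y² = x³ + A_j x + B_j`, with `h` the largest absolute value of the `A_j`, `B_j`: for ALL integers
`x` with `(log h) ^ C ≤ x ≤ h ^ κ` and ALL integers `t_1, ..., t_r`, the number of the primes `p ≤ x` at which the curves have
the traces of Frobenius `t_j` differs from its expected value `V` by at most `(max 1 V) ^ (1 / 2) x ^ δ`. -/
def Law {r : ℕ} (C κ δ : ℝ) (m : Fin r → ℤ × ℤ) : Prop :=
  ∀ x : ℕ, Real.log (height m) ^ C ≤ x → (x : ℝ) ≤ (height m : ℝ) ^ κ → ∀ t : Fin r → ℤ,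
    |(count m t x : ℝ) - expected t x| ≤ √(max 1 (expected t x)) * (x : ℝ) ^ δ

lemma coord_inj {r : ℕ} : Function.Injective (coord (r := r)) := by
  intro m m' h
  funext j
  have h0 := congrFun h (j, 0)
  have h1 := congrFun h (j, 1)
  simp only [coord, if_true] at h0
  simp only [coord] at h1
  rw [if_neg (by decide), if_neg (by decide)] at h1
  exact Prod.ext h0 h1

lemma shells (r : ℕ) (δ : ℝ) (hδ : 0 < δ) : ∃ κ C : ℝ, 0 < κ ∧ κ ≤ 1 ∧ 0 < C ∧ ∃ B : ℝ, ∃ i₁ : ℕ, ∀ i : ℕ, i₁ ≤ i →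
    ({m : Fin r → ℤ × ℤ | m ∈ {m | ¬ Law C κ δ m} ∧ 2 ^ i ≤ Pool.Agent.X124.RP.nm coord m ∧
      Pool.Agent.X124.RP.nm coord m < 2 ^ (i + 1)}.ncard : ℝ) ≤ B * ((2 : ℝ) ^ i) ^ (2 * r - κ) := by
  classical
  obtain ⟨κ₀, C, hκ₀, hC, N₀, H⟩ := CurvesInBoxes.result r δ hδ
  obtain ⟨κ, hκ⟩ : ∃ κ : ℝ, κ = min (κ₀ / 2) 1 := ⟨_, rfl⟩
  have hκ0 : 0 < κ := by rw [hκ]; exact lt_min (by linarith) one_pos
  have hκa : κ ≤ κ₀ / 2 := by rw [hκ]; exact min_le_left _ _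
  have hκb : κ ≤ 1 := by rw [hκ]; exact min_le_right _ _
  refine ⟨κ, C, hκ0, hκb, hC, 16 ^ r, N₀ + 1, fun i hi => ?_⟩
  obtain ⟨N, hN⟩ : ∃ N : ℕ, N = 2 ^ i := ⟨_, rfl⟩
  have hNN : N₀ ≤ N := by
    have h1 : i < 2 ^ i := Nat.lt_two_pow_self
    omega
  have hN2 : 2 ≤ N := by
    rw [hN]
    calc 2 = 2 ^ 1 := by norm_num
      _ ≤ 2 ^ i := Nat.pow_le_pow_right (by norm_num) (by omega)
  have hNr : ((2 : ℝ) ^ i) = N := by rw [hN]; push_cast; rfl
  have hN2r : (2 : ℝ) ≤ N := by exact_mod_cast hN2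
  have hbox := H N hNN (fun _ => (-(2 * N : ℤ), -(2 * N : ℤ))) (fun _ => (4 * N, 4 * N)) (fun _ => ⟨by omega, by omega⟩)
  have hfin : (exceptional C κ₀ δ N (fun _ : Fin r => (-(2 * N : ℤ), -(2 * N : ℤ))) (fun _ => (4 * N, 4 * N))).Finite := by
    refine (Set.Finite.pi' (t := fun _ => (Set.Ico (-(2 * N : ℤ)) (-(2 * N : ℤ) + (4 * N : ℕ))) ×ˢ
      (Set.Ico (-(2 * N : ℤ)) (-(2 * N : ℤ) + (4 * N : ℕ))))
      (fun _ => (Set.finite_Ico _ _).prod (Set.finite_Ico _ _))).subset ?_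
    rintro m ⟨hm, -⟩ j
    exact ⟨(hm j).1, (hm j).2⟩
  have hsub : {m : Fin r → ℤ × ℤ | m ∈ {m | ¬ Law C κ δ m} ∧ 2 ^ i ≤ Pool.Agent.X124.RP.nm coord m ∧
      Pool.Agent.X124.RP.nm coord m < 2 ^ (i + 1)} ⊆
      exceptional C κ₀ δ N (fun _ : Fin r => (-(2 * N : ℤ), -(2 * N : ℤ))) (fun _ => (4 * N, 4 * N)) := by
    rintro m ⟨hm, h1, h2⟩
    have hco : ∀ l, |coord m l| < 2 * N := by
      intro l
      have h3 : (coord m l).natAbs < 2 ^ (i + 1) :=
        (Finset.le_sup (f := fun l => (coord m l).natAbs) (mem_univ l)).trans_lt h2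
      rw [pow_succ, ← hN] at h3
      rw [Int.abs_eq_natAbs]
      have : ((coord m l).natAbs : ℤ) < ((N * 2 : ℕ) : ℤ) := by exact_mod_cast h3
      push_cast at this ⊢
      linarith
    refine ⟨fun j => ?_, ?_⟩
    · have h3 := abs_lt.1 (hco (j, 0))
      have h4 := abs_lt.1 (hco (j, 1))
      simp only [coord, if_true] at h3
      simp only [coord] at h4
      rw [if_neg (by decide)] at h4
      simp only
      push_cast
      refine ⟨⟨by linarith, by linarith⟩, by linarith, by linarith⟩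
    · have hm' : ¬ Law C κ δ m := hm
      unfold Law at hm'
      push Not at hm'
      obtain ⟨x, hx1, hx2, t, ht⟩ := hm'
      have hh : height m = Pool.Agent.X124.RP.nm coord m := rfl
      have h3 : (N : ℝ) ≤ height m := by rw [hh, hN]; exact_mod_cast h1
      have h4 : (height m : ℝ) ≤ (N : ℝ) ^ (2 : ℝ) := by
        rw [Real.rpow_two, hh]
        have h5 : ((Pool.Agent.X124.RP.nm coord m : ℕ) : ℝ) ≤ ((2 ^ (i + 1) : ℕ) : ℝ) := by exact_mod_cast h2.le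
        have h6 : ((2 ^ (i + 1) : ℕ) : ℝ) = N * 2 := by push_cast; rw [pow_succ, hNr]
        rw [h6] at h5
        nlinarith
      refine ⟨x, le_trans ?_ hx1, hx2.trans ?_, t, ht⟩
      · exact Real.rpow_le_rpow (Real.log_nonneg (by linarith)) (Real.log_le_log (by linarith) h3) hC.le
      · calc (height m : ℝ) ^ κ ≤ ((N : ℝ) ^ (2 : ℝ)) ^ κ := Real.rpow_le_rpow (Nat.cast_nonneg _) h4 hκ0.le
          _ = (N : ℝ) ^ (2 * κ) := by rw [← Real.rpow_mul (by positivity)]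
          _ ≤ (N : ℝ) ^ κ₀ := Real.rpow_le_rpow_of_exponent_le (by linarith) (by linarith)
  have h1 := Set.ncard_le_ncard hsub hfin
  have hN0 : (0 : ℝ) < N := by linarith
  calc ({m : Fin r → ℤ × ℤ | m ∈ {m | ¬ Law C κ δ m} ∧ 2 ^ i ≤ Pool.Agent.X124.RP.nm coord m ∧
      Pool.Agent.X124.RP.nm coord m < 2 ^ (i + 1)}.ncard : ℝ) ≤ _ := by exact_mod_cast h1
    _ ≤ (N : ℝ) ^ (-κ₀) * ∏ _j : Fin r, (((4 * N : ℕ) : ℝ) * ((4 * N : ℕ) : ℝ)) := hbox
    _ = 16 ^ r * (N : ℝ) ^ (2 * r - κ₀) := by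
        rw [prod_const, card_univ, Fintype.card_fin]
        have e1 : (((4 * N : ℕ) : ℝ) * ((4 * N : ℕ) : ℝ)) = 16 * (N : ℝ) ^ (2 : ℝ) := by
          rw [Real.rpow_two]
          push_cast
          ring
        rw [e1, mul_pow, ← Real.rpow_natCast ((N : ℝ) ^ (2 : ℝ)) r, ← Real.rpow_mul hN0.le, sub_eq_add_neg,
          Real.rpow_add hN0]
        ring
    _ ≤ 16 ^ r * (N : ℝ) ^ (2 * r - κ) := by
        apply mul_le_mul_of_nonneg_left _ (by positivity)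
        exact Real.rpow_le_rpow_of_exponent_le (by linarith) (by linarith)
    _ = 16 ^ r * ((2 : ℝ) ^ i) ^ (2 * r - κ) := by rw [hNr]

lemma expLe_succ : ExpLe (fun l : ℕ => (l : ℝ) + 1) 1 := by
  intro p hp
  have h := Pool.Agent.Y854.GM.expLe_pow 1 one_pos p (by rw [div_one]; exact hp)
  simpa using h

/-- Let `r ≥ 1` and `δ > 0`. There are `0 < κ ≤ 1` and `C > 0` such that, for all sequences `v ≥ 1` of exponent of convergence at
most `τ` (`τ ≥ 0`) and all real `θ < 1`: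

(1) there is a set `E` of real vectors `α = (α_1, β_1, ..., α_r, β_r)` of Hausdorff dimension at most
`(2 r - κ + τ) / (1 - θ)` such that for each `α` outside `E`, for all large `l`, the law holds for ALL integral vectors
`(A_1, B_1, ..., A_r, B_r)` with `|A_j - α_j v_l| ≤ v_l ^ θ` and `|B_j - β_j v_l| ≤ v_l ^ θ` for all `j`;
(2) if `2 r θ + τ < κ` this is true for almost all `α`.
(3) The exponents of convergence of `v_l = (l + 1) ^ b` and `b ^ l` are at most `1 / b` and `0`.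
(4) In particular for almost all `α ∈ ℝ ^ (2 r)` the law holds for all large `N` and all integral vectors with
`|A_j - N α_j| ≤ N ^ (-1 / (2 r))` and `|B_j - N β_j| ≤ N ^ (-1 / (2 r))` for all `j`. -/
theorem result (r : ℕ) (hr : 1 ≤ r) (δ : ℝ) (hδ : 0 < δ) : ∃ κ C : ℝ, 0 < κ ∧ κ ≤ 1 ∧ 0 < C ∧
    (∀ (v : ℕ → ℝ) (τ θ : ℝ), (∀ l, 1 ≤ v l) → 0 ≤ τ → ExpLe v τ → θ < 1 →
      (∃ E : Set (Fin r × Fin 2 → ℝ), dimH E ≤ ENNReal.ofReal ((2 * r - κ + τ) / (1 - θ)) ∧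
        ∀ α : Fin r × Fin 2 → ℝ, α ∉ E → ∃ l₀ : ℕ, ∀ l : ℕ, l₀ ≤ l → ∀ m : Fin r → ℤ × ℤ,
          (∀ i, |(coord m i : ℝ) - α i * v l| ≤ (v l) ^ θ) → Law C κ δ m) ∧
      (2 * r * θ + τ < κ → ∀ᵐ α : Fin r × Fin 2 → ℝ, ∃ l₀ : ℕ, ∀ l : ℕ, l₀ ≤ l → ∀ m : Fin r → ℤ × ℤ,
          (∀ i, |(coord m i : ℝ) - α i * v l| ≤ (v l) ^ θ) → Law C κ δ m)) ∧
    ((∀ b : ℝ, 0 < b → ExpLe (fun l : ℕ => ((l : ℝ) + 1) ^ b) (1 / b)) ∧
      ∀ b : ℝ, 1 < b → ExpLe (fun l : ℕ => b ^ l) 0) ∧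
    ∀ᵐ α : Fin r × Fin 2 → ℝ, ∃ N₀ : ℕ, ∀ N : ℕ, N₀ ≤ N → ∀ m : Fin r → ℤ × ℤ,
      (∀ i, |(coord m i : ℝ) - N * α i| ≤ (N : ℝ) ^ (-1 / (2 * r) : ℝ)) → Law C κ δ m := by
  obtain ⟨κ, C, hκ, hκ1, hC, hsh⟩ := shells r δ hδ
  have hr1 : (1 : ℝ) ≤ r := by exact_mod_cast hr
  have hs : (0 : ℝ) ≤ 2 * r - κ := by linarith
  have hcard : ((Fintype.card (Fin r × Fin 2) : ℕ) : ℝ) = 2 * r := by
    rw [Fintype.card_prod, Fintype.card_fin, Fintype.card_fin]
    push_cast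
    ring
  have hae : ∀ (v : ℕ → ℝ) (τ θ : ℝ), (∀ l, 1 ≤ v l) → 0 ≤ τ → ExpLe v τ → θ < 1 → 2 * r * θ + τ < κ →
      ∀ᵐ α : Fin r × Fin 2 → ℝ, ∃ l₀ : ℕ, ∀ l : ℕ, l₀ ≤ l → ∀ m : Fin r → ℤ × ℤ,
          (∀ i, |(coord m i : ℝ) - α i * v l| ≤ (v l) ^ θ) → Law C κ δ m := by
    intro v τ θ hv1 hτ hE hθ h
    have h1 := Pool.Agent.X124.RP.along_ae (coord (r := r)) coord_inj {m | ¬ Law C κ δ m} hs hsh hv1 hτ hE hθ
      (by rw [hcard]; linarith)
    filter_upwards [h1] with α hα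
    obtain ⟨l₀, hl⟩ := hα
    refine ⟨l₀, fun l hl1 m hm => ?_⟩
    by_contra hcon
    exact hl l hl1 m hcon hm
  refine ⟨κ, C, hκ, hκ1, hC, fun v τ θ hv1 hτ hE hθ => ⟨?_, fun h => hae v τ θ hv1 hτ hE hθ h⟩,
    ⟨fun b hb => Pool.Agent.Y854.GM.expLe_pow b hb, fun b hb => Pool.Agent.Y854.GM.expLe_geom b hb⟩, ?_⟩
  · obtain ⟨E, h1, h2⟩ := Pool.Agent.X124.RP.along (coord (r := r)) coord_inj {m | ¬ Law C κ δ m} hs hsh hv1 hτ hE hθ
    refine ⟨E, h1, fun α hα => ?_⟩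
    obtain ⟨l₀, hl⟩ := h2 α hα
    refine ⟨l₀, fun l hl1 m hm => ?_⟩
    by_contra hcon
    exact hl l hl1 m hcon hm
  · have hneg : (-1 / (2 * r) : ℝ) < 1 := by
      have : (-1 / (2 * r) : ℝ) ≤ 0 := div_nonpos_of_nonpos_of_nonneg (by norm_num) (by positivity)
      linarith
    have h1 := hae (fun l : ℕ => (l : ℝ) + 1) 1 (-1 / (2 * r) : ℝ)
      (fun l => by have : (0 : ℝ) ≤ l := Nat.cast_nonneg l
                   linarith) zero_le_one expLe_succ hneg (by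
        have e : 2 * (r : ℝ) * (-1 / (2 * r)) = -1 := by
          field_simp
        rw [e]
        linarith)
    filter_upwards [h1] with α hα
    obtain ⟨l₀, hl⟩ := hα
    refine ⟨l₀ + 1, fun N hN m hm => ?_⟩
    obtain ⟨l, rfl⟩ : ∃ l, N = l + 1 := ⟨N - 1, by omega⟩
    refine hl l (by omega) m fun i => ?_
    have h2 := hm i
    push_cast at h2
    rw [mul_comm (α i)]
    exact h2

end Pool.Agent.Results.MP_f1937f_nt.CurvesAlongSequences
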