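import Pool.Agent.X22.ND2
import Pool.Agent.H126T.Field

/-!
# Primes with a fixed Frobenius trace for the quadratic twists of an elliptic curve by almost all integers which arise from an arbitrary
integer by changing a few digits: half of the primes at which the trace is `± a`, with square-root error

Nothing is used besides Mathlib in the statement.
-/

set_option autoImplicit false

namespace Pool.Agent.Results.MP_f1937f_nt.FewDigitTwists

open Finset

/-- The trace of Frobenius `a_p = p + 1 - #E_D(F_p)` of the curve `E_D : D Y ^ 2 = X ^ 3 + α X + β` (`p` prime). -/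
noncomputable def trace (α β : ℤ) (D p : ℕ) : ℤ :=
  p - Nat.card {P : ZMod p × ZMod p // (D : ZMod p) * P.2 ^ 2 = P.1 ^ 3 + (α : ZMod p) * P.1 + (β : ZMod p)}

/-- `p` is a prime number which does not divide `2 D (4 α ^ 3 + 27 β ^ 2)`; then `E_D` has good reduction at `p`. -/
def Good (α β : ℤ) (D p : ℕ) : Prop := p.Prime ∧ ¬ (p : ℤ) ∣ 2 * D * (4 * α ^ 3 + 27 * β ^ 2)

open Classical in
/-- The number of the good primes `p ∈ P` at which the trace of Frobenius of `E_D` is `a`. -/
noncomputable def count (α β : ℤ) (P : Finset ℕ) (D : ℕ) (a : ℤ) : ℕ :=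
  (P.filter (fun p => Good α β D p ∧ trace α β D p = a)).card

open Classical in
/-- The number of the good primes `p ∈ P` for `E_D` at which the trace of Frobenius of `E : Y ^ 2 = X ^ 3 + α X + β` is `a` or `-a`. -/
noncomputable def both (α β : ℤ) (P : Finset ℕ) (D : ℕ) (a : ℤ) : ℕ :=
  (P.filter (fun p => Good α β D p ∧ (trace α β 1 p = a ∨ trace α β 1 p = -a))).card

/-- The digit number `i` (counted from the right, beginning with `0`) of `n` in base `b`. -/
def digit (b i n : ℕ) : ℕ := n / b ^ i % b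

/-- The number which arises from the number `N` with at most `K` digits in base `b`, if for every `i ∈ S`
the digit number `i` is replaced by `f i`. -/
def change (b K N : ℕ) (f : ℕ → ℕ) (S : Finset ℕ) : ℕ :=
  ∑ i ∈ range K, (if i ∈ S then f i else digit b i N) * b ^ i

open Classical in
/-- The number of the choices of `r` of `K` positions for which the number obtained by
changing the digits of `N` at the chosen positions (according to `f`) does not have the property `E`. -/
noncomputable def exceptions (b K r N : ℕ) (f : ℕ → ℕ) (E : ℕ → Prop) : ℕ :=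
  ((powersetCard r (range K)).filter (fun S => ¬ E (change b K N f S))).card

open Pool.Agent.X22.ND (chi char_law op mem_op chi_zero)

lemma trace_twist (α β : ℤ) (D p : ℕ) (hp : p.Prime) (hg : ¬ p ∣ 2 * D) :
    (trace α β D p : ℝ) = chi p D * trace α β 1 p := by
  classical
  have hf : Fact p.Prime := ⟨hp⟩
  have h2 : ringChar (ZMod p) ≠ 2 := by
    rw [ZMod.ringChar_zmod_n]
    rintro rfl
    exact hg (Dvd.intro _ rfl)
  have hD0 : (D : ZMod p) ≠ 0 := by
    rw [Ne, ZMod.natCast_eq_zero_iff]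
    intro h3
    exact hg (h3.mul_left 2)
  obtain ⟨g, hgdef⟩ : ∃ g : Polynomial (ZMod p), g = Polynomial.X ^ 3 + Polynomial.C (α : ZMod p) * Polynomial.X + Polynomial.C (β : ZMod p) := ⟨_, rfl⟩
  have hev : ∀ x : ZMod p, g.eval x = x ^ 3 + (α : ZMod p) * x + (β : ZMod p) := by
    intro x
    rw [hgdef]
    simp
  have e1 : ∀ d : ZMod p, {P : ZMod p × ZMod p // d * P.2 ^ 2 = g.eval P.1} =
      {P : ZMod p × ZMod p // d * P.2 ^ 2 = P.1 ^ 3 + (α : ZMod p) * P.1 + (β : ZMod p)} := by
    intro d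
    congr 1
    funext P
    rw [hev]
  have h3 := Pool.Agent.H126T.card_aff h2 g (D : ZMod p) hD0
  have h4 := Pool.Agent.H126T.card_aff h2 g (1 : ZMod p) one_ne_zero
  rw [e1, ZMod.card] at h3 h4
  unfold trace
  rw [Nat.cast_one]
  unfold chi
  rw [dif_pos hp]
  have h5 : ((p : ℤ) - Nat.card {P : ZMod p × ZMod p // (D : ZMod p) * P.2 ^ 2 = P.1 ^ 3 + (α : ZMod p) * P.1 + (β : ZMod p)} : ℤ) =
      quadraticChar (ZMod p) (D : ZMod p) *
        ((p : ℤ) - Nat.card {P : ZMod p × ZMod p // (1 : ZMod p) * P.2 ^ 2 = P.1 ^ 3 + (α : ZMod p) * P.1 + (β : ZMod p)}) := by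
    rw [h3, h4, map_one]
    ring
  exact_mod_cast h5

lemma good_iff (α β : ℤ) (D p : ℕ) : Good α β D p ↔ (Good α β 1 p ∧ ¬ p ∣ D) := by
  unfold Good
  constructor
  · rintro ⟨h1, h2⟩
    refine ⟨⟨h1, fun h3 => h2 ?_⟩, fun h3 => h2 ?_⟩
    · have e : 2 * (D : ℤ) * (4 * α ^ 3 + 27 * β ^ 2) = D * (2 * ((1 : ℕ) : ℤ) * (4 * α ^ 3 + 27 * β ^ 2)) := by
        push_cast
        ring
      rw [e]
      exact h3.mul_left _
    · have e : 2 * (D : ℤ) * (4 * α ^ 3 + 27 * β ^ 2) = D * (2 * (4 * α ^ 3 + 27 * β ^ 2)) := by ring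
      rw [e]
      exact (Int.natCast_dvd_natCast.2 h3).mul_right _
  · rintro ⟨⟨h1, h2⟩, h3⟩
    refine ⟨h1, fun h4 => ?_⟩
    have hp : _root_.Prime (p : ℤ) := Nat.prime_iff_prime_int.1 h1
    have e : 2 * (D : ℤ) * (4 * α ^ 3 + 27 * β ^ 2) = D * (2 * ((1 : ℕ) : ℤ) * (4 * α ^ 3 + 27 * β ^ 2)) := by
      push_cast
      ring
    rw [e] at h4
    rcases hp.dvd_or_dvd h4 with h5 | h5
    · exact h3 (Int.natCast_dvd_natCast.1 h5)
    · exact h2 h5

lemma ne_two (α β : ℤ) (D p : ℕ) (h : Good α β D p) : p ≠ 2 := by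
  rintro rfl
  apply h.2
  have e : 2 * (D : ℤ) * (4 * α ^ 3 + 27 * β ^ 2) = ((2 : ℕ) : ℤ) * (D * (4 * α ^ 3 + 27 * β ^ 2)) := by
    push_cast
    ring
  rw [e]
  exact Dvd.intro _ rfl

lemma not_dvd (α β : ℤ) (D p : ℕ) (h : Good α β D p) : ¬ p ∣ 2 * D := by
  intro h3
  apply h.2
  have h4 : (p : ℤ) ∣ ((2 * D : ℕ) : ℤ) := Int.natCast_dvd_natCast.2 h3
  push_cast at h4
  exact h4.mul_right _

lemma trace_le (α β : ℤ) (D p x : ℕ) (hp : p.Prime) (hpx : p ≤ x) : |trace α β D p| ≤ (x : ℤ) ^ 2 := by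
  classical
  have hf : Fact p.Prime := ⟨hp⟩
  unfold trace
  have h1 : Nat.card {P : ZMod p × ZMod p // (D : ZMod p) * P.2 ^ 2 = P.1 ^ 3 + (α : ZMod p) * P.1 + (β : ZMod p)} ≤ p ^ 2 := by
    rw [Nat.card_eq_fintype_card]
    refine (Fintype.card_subtype_le _).trans ?_
    rw [Fintype.card_prod, ZMod.card, sq]
  have h2 : p ^ 2 ≤ x ^ 2 := Nat.pow_le_pow_left hpx 2
  have h3 : p ≤ x ^ 2 := hpx.trans (Nat.le_self_pow (by norm_num) x)
  have h4 : (Nat.card {P : ZMod p × ZMod p // (D : ZMod p) * P.2 ^ 2 = P.1 ^ 3 + (α : ZMod p) * P.1 + (β : ZMod p)} : ℤ) ≤ (x : ℤ) ^ 2 := by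
    exact_mod_cast h1.trans h2
  have h5 : (p : ℤ) ≤ (x : ℤ) ^ 2 := by exact_mod_cast h3
  have h6 : (0 : ℤ) ≤ Nat.card {P : ZMod p × ZMod p // (D : ZMod p) * P.2 ^ 2 = P.1 ^ 3 + (α : ZMod p) * P.1 + (β : ZMod p)} := Nat.cast_nonneg _
  have h7 : (0 : ℤ) ≤ p := Nat.cast_nonneg _
  rw [abs_le]
  constructor <;> linarith

open Classical in
/-- the weight -/
noncomputable def wt (α β : ℤ) (P : Finset ℕ) (a : ℤ) (p : ℕ) : ℝ :=
  (if p ∈ P ∧ Good α β 1 p ∧ trace α β 1 p = a then 1 else 0) - (if p ∈ P ∧ Good α β 1 p ∧ trace α β 1 p = -a then 1 else 0)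

open Classical in
lemma wt_sq (α β : ℤ) (P : Finset ℕ) (a : ℤ) (ha : a ≠ 0) (x : ℕ) (hP : ∀ p ∈ P, p ≤ x) :
    ∑ p ∈ op x, wt α β P a p ^ 2 = both α β P 1 a := by
  unfold both
  rw [card_filter]
  push_cast
  have h1 : ∑ p ∈ op x, wt α β P a p ^ 2 = ∑ p ∈ (op x).filter (fun p => p ∈ P), wt α β P a p ^ 2 := by
    rw [sum_filter]
    apply sum_congr rfl
    intro p _
    by_cases hp : p ∈ P
    · rw [if_pos hp]
    · rw [if_neg hp]
      unfold wt
      rw [if_neg (fun h => hp h.1), if_neg (fun h => hp h.1)]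
      norm_num
  have h2 : ∑ p ∈ P, (if Good α β 1 p ∧ (trace α β 1 p = a ∨ trace α β 1 p = -a) then (1 : ℝ) else 0) =
      ∑ p ∈ (op x).filter (fun p => p ∈ P), (if Good α β 1 p ∧ (trace α β 1 p = a ∨ trace α β 1 p = -a) then (1 : ℝ) else 0) := by
    symm
    apply sum_subset_zero_on_sdiff
    · intro p hp
      exact (mem_filter.1 hp).2
    · intro p hp
      rw [mem_sdiff, mem_filter, mem_op] at hp
      rw [if_neg]
      intro h3
      exact hp.2 ⟨⟨hP p hp.1, h3.1.1, ne_two α β 1 p h3.1⟩, hp.1⟩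
    · intro p _
      rfl
  rw [h1, h2]
  apply sum_congr rfl
  intro p hp
  rw [mem_filter] at hp
  unfold wt
  by_cases hg : Good α β 1 p
  · by_cases h3 : trace α β 1 p = a
    · have h4 : ¬ trace α β 1 p = -a := by
        intro h5
        apply ha
        omega
      rw [if_pos ⟨hp.2, hg, h3⟩, if_neg (fun h => h4 h.2.2), if_pos ⟨hg, Or.inl h3⟩]
      norm_num
    · by_cases h4 : trace α β 1 p = -a
      · rw [if_neg (fun h => h3 h.2.2), if_pos ⟨hp.2, hg, h4⟩, if_pos ⟨hg, Or.inr h4⟩]
        norm_num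
      · rw [if_neg (fun h => h3 h.2.2), if_neg (fun h => h4 h.2.2), if_neg (by rintro ⟨_, h5 | h5⟩; exacts [h3 h5, h4 h5])]
        norm_num
  · rw [if_neg (fun h => hg h.2.1), if_neg (fun h => hg h.2.1), if_neg (fun h => hg h.1)]
    norm_num

open Classical in
lemma wt_sum (α β : ℤ) (P : Finset ℕ) (a : ℤ) (ha : a ≠ 0) (x : ℕ) (hP : ∀ p ∈ P, p ≤ x) (D : ℕ) :
    ∑ p ∈ op x, chi p D * wt α β P a p = 2 * count α β P D a - both α β P D a := by
  unfold count both
  rw [card_filter, card_filter]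
  push_cast
  rw [mul_sum, ← sum_sub_distrib]
  have h1 : ∑ p ∈ op x, chi p D * wt α β P a p = ∑ p ∈ (op x).filter (fun p => p ∈ P), chi p D * wt α β P a p := by
    rw [sum_filter]
    apply sum_congr rfl
    intro p _
    by_cases hp : p ∈ P
    · rw [if_pos hp]
    · rw [if_neg hp]
      unfold wt
      rw [if_neg (fun h => hp h.1), if_neg (fun h => hp h.1)]
      norm_num
  have h2 : ∑ p ∈ P, (2 * (if Good α β D p ∧ trace α β D p = a then (1 : ℝ) else 0) -
        (if Good α β D p ∧ (trace α β 1 p = a ∨ trace α β 1 p = -a) then (1 : ℝ) else 0)) =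
      ∑ p ∈ (op x).filter (fun p => p ∈ P), (2 * (if Good α β D p ∧ trace α β D p = a then (1 : ℝ) else 0) -
        (if Good α β D p ∧ (trace α β 1 p = a ∨ trace α β 1 p = -a) then (1 : ℝ) else 0)) := by
    symm
    apply sum_subset_zero_on_sdiff
    · intro p hp
      exact (mem_filter.1 hp).2
    · intro p hp
      rw [mem_sdiff, mem_filter, mem_op] at hp
      rw [if_neg, if_neg]
      · norm_num
      · intro h3
        exact hp.2 ⟨⟨hP p hp.1, h3.1.1, ne_two α β D p h3.1⟩, hp.1⟩
      · intro h3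
        exact hp.2 ⟨⟨hP p hp.1, h3.1.1, ne_two α β D p h3.1⟩, hp.1⟩
    · intro p _
      rfl
  rw [h1, h2]
  apply sum_congr rfl
  intro p hp
  rw [mem_filter] at hp
  unfold wt
  by_cases hg : Good α β D p
  · have hg1 := ((good_iff α β D p).1 hg).1
    have htw := trace_twist α β D p hg.1 (not_dvd α β D p hg)
    have hf : Fact p.Prime := ⟨hg.1⟩
    have hD0 : (D : ZMod p) ≠ 0 := by
      rw [Ne, ZMod.natCast_eq_zero_iff]
      exact ((good_iff α β D p).1 hg).2
    have hchi : chi p D = 1 ∨ chi p D = -1 := by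
      unfold chi
      rw [dif_pos hg.1]
      rcases quadraticChar_dichotomy hD0 with h | h
      · left
        rw [h]
        simp
      · right
        rw [h]
        simp
    by_cases h3 : trace α β 1 p = a
    · have h4 : ¬ trace α β 1 p = -a := by
        intro h5
        apply ha
        omega
      rw [if_pos ⟨hp.2, hg1, h3⟩, if_neg (fun h => h4 h.2.2), if_pos (c := Good α β D p ∧ (trace α β 1 p = a ∨ trace α β 1 p = -a)) ⟨hg, Or.inl h3⟩]
      rcases hchi with hc | hc
      · have h5 : trace α β D p = a := by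
          rw [hc, one_mul, h3] at htw
          exact_mod_cast htw
        rw [if_pos ⟨hg, h5⟩, hc]
        norm_num
      · have h5 : ¬ trace α β D p = a := by
          intro h6
          rw [hc, h3, h6] at htw
          have h7 : (2 : ℝ) * a = 0 := by linarith
          have h8 : (a : ℝ) = 0 := by linarith
          exact ha (by exact_mod_cast h8)
        rw [if_neg (fun h => h5 h.2), hc]
        norm_num
    · by_cases h4 : trace α β 1 p = -a
      · rw [if_neg (fun h => h3 h.2.2), if_pos ⟨hp.2, hg1, h4⟩, if_pos (c := Good α β D p ∧ (trace α β 1 p = a ∨ trace α β 1 p = -a)) ⟨hg, Or.inr h4⟩]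
        rcases hchi with hc | hc
        · have h5 : ¬ trace α β D p = a := by
            intro h6
            rw [hc, h4, h6] at htw
            push_cast at htw
            have h8 : (a : ℝ) = 0 := by linarith
            exact ha (by exact_mod_cast h8)
          rw [if_neg (fun h => h5 h.2), hc]
          norm_num
        · have h5 : trace α β D p = a := by
            rw [hc, h4] at htw
            push_cast at htw
            have h8 : (trace α β D p : ℝ) = a := by linarith
            exact_mod_cast h8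
          rw [if_pos ⟨hg, h5⟩, hc]
          norm_num
      · have h5 : ¬ trace α β D p = a := by
          intro h6
          rcases hchi with hc | hc
          · rw [hc, h6, one_mul] at htw
            exact h3 (by exact_mod_cast htw.symm)
          · rw [hc, h6] at htw
            apply h4
            have h8 : ((trace α β 1 p : ℤ) : ℝ) = ((-a : ℤ) : ℝ) := by
              push_cast
              linarith
            exact_mod_cast h8
        rw [if_neg (fun h => h3 h.2.2), if_neg (fun h => h4 h.2.2), if_neg (fun h => h5 h.2), if_neg (by rintro ⟨_, h6 | h6⟩; exacts [h3 h6, h4 h6])]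
        norm_num
  · rw [if_neg (c := Good α β D p ∧ trace α β D p = a) (fun h => hg h.1),
      if_neg (c := Good α β D p ∧ (trace α β 1 p = a ∨ trace α β 1 p = -a)) (fun h => hg h.1)]
    by_cases hg1 : Good α β 1 p
    · have hpD : p ∣ D := by
        by_contra h6
        exact hg ((good_iff α β D p).2 ⟨hg1, h6⟩)
      rw [chi_zero p D hpD]
      norm_num
    · rw [if_neg (fun h => hg1 h.2.1), if_neg (fun h => hg1 h.2.1)]
      norm_num

/-- Let a base `b ≥ 2`, `δ > 0` and an integer `A ≥ 0` be given. There are `c > 0` and `y₀` such that for all integers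
`r`, `K`, `y` with `2 r ≤ K` and `y ≥ y₀` the following holds.

Let `0 ≤ N < b ^ K` be an arbitrary integer, prescribe for every position `i` a digit `f i` different from the digit of
`N` in base `b`, and let `H x` be for every `x` a set of at most `x ^ A` triples `(α, β, P)`, where `α`, `β` are integers and
`P` is a set of integers up to `x` (for instance all of them, or those in an arithmetic progression). If one chooses `r` of the `K`
positions and replaces the digits of `N` at these positions, then for all but at most a proportion `1 / y ^ A` of the choices the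
number `D` obtained has the following property: for all integers `x` with `y ≤ x ≤ exp (c r)`, all `(α, β, P) ∈ H x` and all integers `a ≠ 0`
the number of the good primes `p ∈ P` at which the twist `D Y ^ 2 = X ^ 3 + α X + β` has the trace of Frobenius `a` differs from one half of the number of
the good primes `p ∈ P` at which the trace of `Y ^ 2 = X ^ 3 + α X + β` is `± a` by at most the square root of the latter number, up to
the factor `x ^ δ` (the primes dividing `D` are not good for the twist and are omitted in the main term, but counted in the error term). -/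
theorem result (b : ℕ) (hb : 2 ≤ b) (δ : ℝ) (hδ : 0 < δ) (A : ℕ) : ∃ c : ℝ, 0 < c ∧ ∃ y₀ : ℕ,
    ∀ K r y : ℕ, 2 * r ≤ K → y₀ ≤ y → ∀ N : ℕ, N < b ^ K → ∀ f : ℕ → ℕ, (∀ i, f i < b ∧ f i ≠ digit b i N) →
    ∀ H : ℕ → Finset (ℤ × ℤ × Finset ℕ), (∀ x, (H x).card ≤ x ^ A) → (∀ x, ∀ h ∈ H x, ∀ p ∈ h.2.2, p ≤ x) →
      (exceptions b K r N f (fun D => ∀ x : ℕ, y ≤ x → (x : ℝ) ≤ Real.exp (c * r) → ∀ h ∈ H x, ∀ a : ℤ, a ≠ 0 →
        |(count h.1 h.2.1 h.2.2 D a : ℝ) - both h.1 h.2.1 h.2.2 D a / 2| ≤ Real.sqrt (both h.1 h.2.1 h.2.2 1 a) * (x : ℝ) ^ δ) : ℝ) ≤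
        1 / (y : ℝ) ^ A * (K.choose r : ℝ) := by
  classical
  obtain ⟨c, hc, y₀, h⟩ := char_law b hb δ hδ A (A + 4)
  refine ⟨c, hc, y₀ + 2, fun K r y hrK hy N hN f hf H hH1 hH2 => ?_⟩
  have h2 := h K r y hrK (by omega) N hN f hf
    (fun x => ((H x) ×ˢ (Icc (-((x : ℤ) ^ 2)) ((x : ℤ) ^ 2))).image (fun t => wt t.1.1 t.1.2.1 t.1.2.2 t.2)) (by
      intro x hx
      refine card_image_le.trans ?_
      rw [card_product, Int.card_Icc]
      have e2 : ((x : ℤ) ^ 2 + 1 - -((x : ℤ) ^ 2)).toNat = 2 * x ^ 2 + 1 := by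
        have e3 : (x : ℤ) ^ 2 + 1 - -((x : ℤ) ^ 2) = ((2 * x ^ 2 + 1 : ℕ) : ℤ) := by
          push_cast
          ring
        rw [e3, Int.toNat_natCast]
      rw [e2, pow_add]
      apply Nat.mul_le_mul (hH1 x)
      have e4 : 4 ≤ x ^ 2 := by nlinarith
      have e5 : x ^ 4 = x ^ 2 * x ^ 2 := by ring
      rw [e5]
      nlinarith)
    (fun D => ∀ x : ℕ, y ≤ x → (x : ℝ) ≤ Real.exp (c * r) → ∀ h ∈ H x, ∀ a : ℤ, a ≠ 0 →
        |(count h.1 h.2.1 h.2.2 D a : ℝ) - both h.1 h.2.1 h.2.2 D a / 2| ≤ Real.sqrt (both h.1 h.2.1 h.2.2 1 a) * (x : ℝ) ^ δ) (by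
      intro D hD x hyx hxr t ht a ha
      have hx0 : (0 : ℝ) < x := by exact_mod_cast (by omega : 0 < x)
      have hpow : 0 ≤ Real.sqrt (both t.1 t.2.1 t.2.2 1 a) * (x : ℝ) ^ δ := by positivity
      have e1 : (count t.1 t.2.1 t.2.2 D a : ℝ) - both t.1 t.2.1 t.2.2 D a / 2 =
          (∑ p ∈ op x, chi p D * wt t.1 t.2.1 t.2.2 a p) / 2 := by
        rw [wt_sum t.1 t.2.1 t.2.2 a ha x (hH2 x t ht) D]
        ring
      by_cases hax : a ∈ Icc (-((x : ℤ) ^ 2)) ((x : ℤ) ^ 2)
      · have h3 := hD x hyx hxr (wt t.1 t.2.1 t.2.2 a) (by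
          rw [mem_image]
          exact ⟨(t, a), mem_product.2 ⟨ht, hax⟩, rfl⟩)
        rw [wt_sq t.1 t.2.1 t.2.2 a ha x (hH2 x t ht)] at h3
        rw [e1, abs_div, abs_of_pos (by norm_num : (0 : ℝ) < 2)]
        have h4 : |∑ p ∈ op x, chi p D * wt t.1 t.2.1 t.2.2 a p| / 2 ≤ |∑ p ∈ op x, chi p D * wt t.1 t.2.1 t.2.2 a p| := by
          have := abs_nonneg (∑ p ∈ op x, chi p D * wt t.1 t.2.1 t.2.2 a p)
          linarith
        exact h4.trans h3
      · have e3 : ∀ p ∈ op x, wt t.1 t.2.1 t.2.2 a p = 0 := by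
          intro p hp
          rw [mem_op] at hp
          have h5 := trace_le t.1 t.2.1 1 p x hp.2.1 hp.1
          rw [abs_le] at h5
          rw [mem_Icc] at hax
          unfold wt
          rw [if_neg, if_neg, sub_zero]
          · rintro ⟨_, _, h6⟩
            apply hax
            constructor <;> linarith [h5.1, h5.2]
          · rintro ⟨_, _, h6⟩
            apply hax
            rw [← h6]
            exact h5
        rw [e1, sum_eq_zero (fun p hp => by rw [e3 p hp, mul_zero])]
        simpa using hpow)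
  unfold exceptions
  exact h2

end Pool.Agent.Results.MP_f1937f_nt.FewDigitTwists
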